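import Pool.Agent.H37.CNY.Stmts

set_option autoImplicit false

namespace Pool.CND

/-- row ZUB: the upper bounds for p-groups -/
theorem zub_thm (h1 : S_UPC) (h2 : S_NGD) (h3 : S_PTA) : S_ZUB := by
  intro p q k G _ _ _ _ hp hG hq
  obtain ⟨n, hn⟩ := hG
  obtain ⟨a, ha, rfl⟩ := hq
  constructor
  · intro hz
    have hD : 1 ≤ p ^ a := Nat.one_le_pow _ _ hp.pos
    refine h2 k G (p ^ a) hD fun c hc => ?_
    have h := h1 p k G ⊤ a 1 hp inferInstance ⟨n, by rw [Subgroup.card_top, hn]⟩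
      (fun h => hp.one_lt.ne' (Nat.dvd_one.1 h)) (by rw [Subgroup.card_top, mul_one]) ?_ c hc
    · obtain ⟨y, hy⟩ := h
      exact ⟨y, by rw [← hy, mul_one]⟩
    · intro z _ hz1 hzp
      obtain ⟨H, hH1, hH2, hH3⟩ := hz z hzp hz1
      obtain ⟨d, hd, hd2⟩ := (Nat.dvd_prime_pow hp).1 hH3
      refine ⟨H, d, le_top, hH1, hH2, hd, ?_⟩
      rw [Subgroup.card_top, ← hd2]
      exact H.index_mul_card.symm
  · rintro rfl ⟨A, hA, hA2⟩
    have h := (h3 2 k G A a 1 hp inferInstance hA (by norm_num)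
      (by rw [mul_one, ← hA2]; exact A.index_mul_card.symm)).2 rfl ha
    rw [mul_one] at h
    have e : 2 ^ a = 2 * 2 ^ (a - 1) := by
      rw [← pow_succ', Nat.sub_add_cancel ha]
    rw [e]
    exact Nat.mul_dvd_mul_left 2 h

end Pool.CND
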